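import Pool.Agent.TH255.QI.Frame
import Pool.Agent.Helper844.DPRM

/-!
# Relations over `ℚ` defined with a predicate; relations between natural numbers
-/

set_option autoImplicit false

namespace Pool.Agent.U84.PR

open MvPolynomial Pool.Agent.TH255.HC Pool.Agent.TH255.QI

/-- There is one existential formula in the language of rings with one more unary predicate which
defines the binary relation `R` in the ring `ℚ` with a predicate for the set `D`, for all sets `D`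
of the class `𝒟`. -/
def DefinesRel (𝒟 : Set ℚ → Prop) (R : ℚ → ℚ → Prop) : Prop :=
  ∃ (n : ℕ) (F : MvPolynomial (Fin 2 ⊕ Fin n) ℤ) (S : Finset (Fin 2 ⊕ Fin n)), ∀ D : Set ℚ, 𝒟 D →
    ∀ a b : ℚ, R a b ↔ ∃ z : Fin n → ℚ, aeval (Sum.elim ![a, b] z) F = 0 ∧
      ∀ s ∈ S, Sum.elim ![a, b] z s ∈ D

variable {𝒟 : Set ℚ → Prop}

theorem final2 {R : ℚ → ℚ → Prop} (h : DT 𝒟 (fun _ v => R (v 0) (v 1))) : DefinesRel 𝒟 R := by
  classical
  obtain ⟨p, S, hp⟩ := h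
  obtain ⟨B, hB, hS⟩ : ∃ B : ℕ, (∀ i ∈ p.vars, i < B) ∧ ∀ s ∈ S, s < B := by
    refine ⟨p.vars.sup id + S.sum + 1, fun i hi => ?_, fun s hs => ?_⟩
    · have : id i ≤ p.vars.sup id := Finset.le_sup hi
      simp only [id] at this
      omega
    · have : s ≤ S.sum := List.single_le_sum (fun _ _ => Nat.zero_le _) _ hs
      omega
  let g : ℕ → Fin 2 ⊕ Fin (B + 1) := fun n =>
    if n % 2 = 0 then Sum.inl (if n = 0 then 0 else 1) else
      if h : n / 2 < B + 1 then Sum.inr ⟨n / 2, h⟩ else Sum.inl 0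
  let V : ℚ → ℚ → ℕ → ℚ := fun a b i => if i = 0 then a else b
  have key : ∀ (a b : ℚ) (u : ℕ → ℚ) (n : ℕ), n < B →
      Sum.elim ![a, b] (fun i : Fin (B + 1) => u i) (g n) = mix (V a b) u n := by
    intro a b u n hn
    obtain ⟨m, rfl | rfl⟩ : ∃ m, n = 2 * m ∨ n = 2 * m + 1 := ⟨n / 2, by omega⟩
    · rw [mix_even]
      have h1 : g (2 * m) = Sum.inl (if 2 * m = 0 then 0 else 1) := by
        simp only [g]
        rw [if_pos (by omega)]
      rw [h1]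
      by_cases hm : m = 0
      · subst hm
        simp [V]
      · rw [if_neg (by omega)]
        simp [V, hm]
    · rw [mix_odd]
      have h1 : g (2 * m + 1) = Sum.inr ⟨m, by omega⟩ := by
        have e1 : (2 * m + 1) / 2 = m := by omega
        simp only [g]
        rw [if_neg (by omega), dif_pos (by omega)]
        congr 1
        exact Fin.ext e1
      rw [h1]
      rfl
  have key2 : ∀ (a b : ℚ) (u : ℕ → ℚ),
      aeval (Sum.elim ![a, b] (fun i : Fin (B + 1) => u i)) (rename g p) =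
        aeval (mix (V a b) u) p := by
    intro a b u
    rw [aeval_rename]
    apply MvPolynomial.eval₂Hom_congr' rfl _ rfl
    intro i hi _
    exact key a b u i (hB i hi)
  refine ⟨B + 1, rename g p, (S.map g).toFinset, fun T hT a b => ?_⟩
  have h0 := hp T hT (V a b)
  have h1 : V a b 0 = a := rfl
  have h2 : V a b 1 = b := rfl
  change R (V a b 0) (V a b 1) ↔ _ at h0
  rw [h1, h2] at h0
  rw [h0]
  constructor
  · rintro ⟨u, hu, hu'⟩
    refine ⟨fun i => u i, by rw [key2]; exact hu, fun s hs => ?_⟩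
    rw [List.mem_toFinset, List.mem_map] at hs
    obtain ⟨s, hs, rfl⟩ := hs
    rw [key a b u s (hS s hs)]
    exact hu' s hs
  · rintro ⟨z, hz, hz'⟩
    let u : ℕ → ℚ := fun i => if h : i < B + 1 then z ⟨i, h⟩ else 0
    have hzu : z = fun i : Fin (B + 1) => u i := by
      funext i
      simp only [u]
      rw [dif_pos i.2]
    rw [hzu] at hz hz'
    refine ⟨u, by rw [← key2]; exact hz, fun s hs => ?_⟩
    rw [← key a b u s (hS s hs)]
    exact hz' _ (List.mem_toFinset.2 (List.mem_map_of_mem hs))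

theorem dt_nat (hz : DT 𝒟 (fun _ v => ∃ z : ℤ, v 0 = z)) :
    DT 𝒟 (fun _ v => ∃ n : ℕ, v 0 = n) := by
  have h : DT 𝒟 (fun _ v => ∃ u : ℕ → ℚ, (∃ z : ℤ, u 0 = z) ∧ (∃ z : ℤ, u 1 = z) ∧
      (∃ z : ℤ, u 2 = z) ∧ (∃ z : ℤ, u 3 = z) ∧
      v 0 = u 0 ^ 2 + u 1 ^ 2 + u 2 ^ 2 + u 3 ^ 2) := by
    apply DT.exs (P := fun _ v u => (∃ z : ℤ, u 0 = z) ∧ (∃ z : ℤ, u 1 = z) ∧
      (∃ z : ℤ, u 2 = z) ∧ (∃ z : ℤ, u 3 = z) ∧
      v 0 = u 0 ^ 2 + u 1 ^ 2 + u 2 ^ 2 + u 3 ^ 2)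
    exact (hz.ren fun _ => 1).and ((hz.ren fun _ => 3).and ((hz.ren fun _ => 5).and
      ((hz.ren fun _ => 7).and (DT.eq (PF.var 0)
        (((((PF.var 1).pow 2).add ((PF.var 3).pow 2)).add ((PF.var 5).pow 2)).add
          ((PF.var 7).pow 2))))))
  refine h.congr fun _ _ v => ?_
  constructor
  · rintro ⟨n, hn⟩
    obtain ⟨a, b, c, d, h⟩ := Nat.sum_four_squares n
    refine ⟨fun i => if i = 0 then a else if i = 1 then b else if i = 2 then c else d,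
      ⟨a, by simp⟩, ⟨b, by simp⟩, ⟨c, by simp⟩, ⟨d, by simp⟩, ?_⟩
    rw [hn, ← h]
    simp
  · rintro ⟨u, ⟨a, ha⟩, ⟨b, hb⟩, ⟨c, hc⟩, ⟨d, hd⟩, h⟩
    refine ⟨(a ^ 2 + b ^ 2 + c ^ 2 + d ^ 2).toNat, ?_⟩
    have h0 : (0 : ℤ) ≤ a ^ 2 + b ^ 2 + c ^ 2 + d ^ 2 := by positivity
    have h1 : (((a ^ 2 + b ^ 2 + c ^ 2 + d ^ 2).toNat : ℤ) : ℚ) =
        ((a ^ 2 + b ^ 2 + c ^ 2 + d ^ 2 : ℤ) : ℚ) := by
      rw [Int.toNat_of_nonneg h0]
    rw [h, ha, hb, hc, hd]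
    have h2 : (((a ^ 2 + b ^ 2 + c ^ 2 + d ^ 2).toNat : ℕ) : ℚ) =
        (((a ^ 2 + b ^ 2 + c ^ 2 + d ^ 2).toNat : ℤ) : ℚ) := (Int.cast_natCast _).symm
    rw [h2, h1]
    push_cast
    ring

theorem mix_eta (w : ℕ → ℚ) : mix (fun n => w (2 * n)) (fun n => w (2 * n + 1)) = w := by
  funext n
  obtain ⟨m, rfl | rfl⟩ : ∃ m, n = 2 * m ∨ n = 2 * m + 1 := ⟨n / 2, by omega⟩
  · rw [mix_even]
  · rw [mix_odd]

theorem pf_poly {ι : Type} (idx : ι → ℕ) (p : Poly ι) :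
    ∃ f : (ℕ → ℚ) → ℚ, PF f ∧ ∀ (w : ℕ → ℚ) (t : ι → ℕ), (∀ i, w (idx i) = t i) →
      f w = ((p t : ℤ) : ℚ) := by
  induction p using Poly.induction with
  | H1 i => exact ⟨fun w => w (idx i), PF.var _, fun w t h => by
      change w (idx i) = _
      rw [Poly.proj_apply, h]; exact (Int.cast_natCast _).symm⟩
  | H2 n => exact ⟨fun _ => n, PF.int n, fun w t h => by rw [Poly.const_apply]⟩
  | H3 f g hf hg =>
    obtain ⟨a, ha, ha'⟩ := hf
    obtain ⟨b, hb, hb'⟩ := hg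
    exact ⟨fun w => a w - b w, ha.sub hb, fun w t h => by
      change a w - b w = _
      rw [Poly.sub_apply, ha' w t h, hb' w t h]; push_cast; ring⟩
  | H4 f g hf hg =>
    obtain ⟨a, ha, ha'⟩ := hf
    obtain ⟨b, hb, hb'⟩ := hg
    exact ⟨fun w => a w * b w, ha.mul hb, fun w t h => by
      change a w * b w = _
      rw [Poly.mul_apply, ha' w t h, hb' w t h]; push_cast; ring⟩

theorem dt_dioph (hn : DT 𝒟 (fun _ v => ∃ n : ℕ, v 0 = n)) {S : ℕ → ℕ → Prop}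
    (hS : Dioph {v : Fin 2 → ℕ | S (v 0) (v 1)}) :
    DT 𝒟 (fun _ v => ∃ a b : ℕ, v 0 = a ∧ v 1 = b ∧ S a b) := by
  classical
  obtain ⟨δ, _, p, hp⟩ := Pool.Agent.Helper844.Dio.finite_dummies hS
  let e := Fintype.equivFin δ
  let idx : Fin 2 ⊕ δ → ℕ := Sum.elim (fun i => 2 * (i : ℕ)) (fun d => 2 * (e d : ℕ) + 1)
  obtain ⟨f, hf, hf'⟩ := pf_poly idx p
  have h : DT 𝒟 (fun _ v => ∃ u : ℕ → ℚ, (∃ n : ℕ, v 0 = n) ∧ (∃ n : ℕ, v 1 = n) ∧
      (∀ i ∈ List.finRange (Fintype.card δ), ∃ n : ℕ, u (i : ℕ) = n) ∧ f (mix v u) = 0) := by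
    apply DT.exs (P := fun _ v u => (∃ n : ℕ, v 0 = n) ∧ (∃ n : ℕ, v 1 = n) ∧
      (∀ i ∈ List.finRange (Fintype.card δ), ∃ n : ℕ, u (i : ℕ) = n) ∧ f (mix v u) = 0)
    have k1 : DT 𝒟 (fun _ w => ∀ i ∈ List.finRange (Fintype.card δ),
        ∃ n : ℕ, w (2 * (i : ℕ) + 1) = n) :=
      DT.list (List.finRange (Fintype.card δ))
        (Q := fun (i : Fin (Fintype.card δ)) _ w => ∃ n : ℕ, w (2 * (i : ℕ) + 1) = n)
        fun i => hn.ren fun _ => 2 * (i : ℕ) + 1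
    have k2 : DT 𝒟 (fun _ w => f (mix (fun n => w (2 * n)) (fun n => w (2 * n + 1))) = 0) :=
      (DT.eq hf PF.zero).congr fun T _ w => by rw [mix_eta]
    exact (hn.ren fun _ => 0).and ((hn.ren fun _ => 2).and (k1.and k2))
  refine h.congr fun _ _ v => ?_
  constructor
  · rintro ⟨a, b, ha, hb, hab⟩
    have h1 : (![a, b] : Fin 2 → ℕ) ∈ {v : Fin 2 → ℕ | S (v 0) (v 1)} := hab
    rw [hp] at h1
    obtain ⟨t, ht⟩ := h1
    refine ⟨fun i => if h : i < Fintype.card δ then t (e.symm ⟨i, h⟩) else 0, ⟨a, ha⟩, ⟨b, hb⟩,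
      fun i _ => ⟨t (e.symm i), ?_⟩, ?_⟩
    · exact dif_pos i.2
    · rw [hf' _ (Sum.elim ![a, b] t) ?_, ht]
      · norm_num
      · rintro (i | d)
        · change mix _ _ (2 * (i : ℕ)) = _
          rw [mix_even]
          fin_cases i
          · exact ha
          · exact hb
        · change mix _ _ (2 * (e d : ℕ) + 1) = _
          rw [mix_odd, dif_pos (e d).2]
          simp
  · rintro ⟨u, ⟨a, ha⟩, ⟨b, hb⟩, hu, hfu⟩
    refine ⟨a, b, ha, hb, ?_⟩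
    have h1 : ∀ i : Fin (Fintype.card δ), ∃ n : ℕ, u (i : ℕ) = n :=
      fun i => hu i (List.mem_finRange i)
    choose t ht using h1
    have h2 : (![a, b] : Fin 2 → ℕ) ∈ {v : Fin 2 → ℕ | S (v 0) (v 1)} := by
      rw [hp]
      refine ⟨fun d => t (e d), ?_⟩
      have h3 := hf' (mix v u) (Sum.elim ![a, b] (fun d => t (e d))) ?_
      · rw [hfu] at h3
        exact_mod_cast h3.symm
      · rintro (i | d)
        · change mix _ _ (2 * (i : ℕ)) = _
          rw [mix_even]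
          fin_cases i
          · exact ha
          · exact hb
        · change mix _ _ (2 * (e d : ℕ) + 1) = _
          rw [mix_odd]
          exact ht (e d)
    exact h2

end Pool.Agent.U84.PR
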