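import Pool.Agent.U84.PR.Rel

/-!
# Pole relations and definable sets `D`
-/

set_option autoImplicit false

namespace Pool.Agent.U84.PR

open MvPolynomial Pool.Agent.TH255.HC Pool.Agent.TH255.QI Pool.Agent.U84.DD

/-- The binary relation `R` is existentially definable (Diophantine) in `ℚ`. -/
def DioRel (R : ℚ → ℚ → Prop) : Prop :=
  ∃ (n : ℕ) (F : MvPolynomial (Fin 2 ⊕ Fin n) ℤ), ∀ a b : ℚ, R a b ↔
    ∃ z : Fin n → ℚ, aeval (Sum.elim ![a, b] z) F = 0

theorem dioRel_of {𝒟 : Set ℚ → Prop} {R : ℚ → ℚ → Prop} (h : DefinesRel 𝒟 R) {D : Set ℚ}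
    (hD : 𝒟 D) (h1 : Dio D) : DioRel R := by
  classical
  obtain ⟨n, F, S, hF⟩ := h
  obtain ⟨m, Q, hQ⟩ := h1
  let τ := Fin n ⊕ ((Fin 2 ⊕ Fin n) × Fin m)
  let j1 : Fin 2 ⊕ Fin n → Fin 2 ⊕ τ := Sum.map id Sum.inl
  let r : Fin 2 ⊕ Fin n → Fin (m + 1) → Fin 2 ⊕ τ := fun s =>
    Fin.cons (j1 s) (fun j => Sum.inr (Sum.inr (s, j)))
  let L : List (MvPolynomial (Fin 2 ⊕ τ) ℤ) :=
    rename j1 F :: (S.toList.map fun s => rename (r s) Q)
  obtain ⟨E, hE⟩ := single L
  let e := Fintype.equivFin τ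
  have key : ∀ (c : Fin 2 → ℚ) (w : τ → ℚ), aeval (Sum.elim c w) E = 0 ↔
      aeval (Sum.elim c fun i => w (Sum.inl i)) F = 0 ∧
        ∀ s ∈ S, aeval (Fin.cons (Sum.elim c (fun i => w (Sum.inl i)) s)
          (fun j => w (Sum.inr (s, j))) : Fin (m + 1) → ℚ) Q = 0 := by
    intro c w
    rw [hE]
    simp only [L, List.mem_cons, List.mem_map, Finset.mem_toList]
    have e0 : ∀ s, Sum.elim c w (j1 s) = Sum.elim c (fun i => w (Sum.inl i)) s := by
      intro s
      rcases s with s | s <;> rfl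
    have e1 : aeval (Sum.elim c w) (rename j1 F) =
        aeval (Sum.elim c fun i => w (Sum.inl i)) F := by
      rw [aeval_rename]
      congr 2
      funext s
      exact e0 s
    have e2 : ∀ s, aeval (Sum.elim c w) (rename (r s) Q) =
        aeval (Fin.cons (Sum.elim c (fun i => w (Sum.inl i)) s) (fun j => w (Sum.inr (s, j))) :
          Fin (m + 1) → ℚ) Q := by
      intro s
      rw [aeval_rename]
      congr 2
      funext i
      refine Fin.cases (e0 s) (fun j => rfl) i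
    constructor
    · intro h
      refine ⟨?_, fun s hs => ?_⟩
      · rw [← e1]
        exact h _ (Or.inl rfl)
      · rw [← e2]
        exact h _ (Or.inr ⟨s, hs, rfl⟩)
    · rintro ⟨h1, h2⟩ p (rfl | ⟨s, hs, rfl⟩)
      · rw [e1]
        exact h1
      · rw [e2]
        exact h2 s hs
  refine ⟨Fintype.card τ, rename (Sum.map id e) E, fun a b => ?_⟩
  have hev : ∀ y : Fin (Fintype.card τ) → ℚ,
      aeval (Sum.elim ![a, b] y) (rename (Sum.map id e) E) =
      aeval (Sum.elim ![a, b] fun t => y (e t)) E := by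
    intro y
    rw [aeval_rename]
    congr 2
    funext s
    rcases s with s | s <;> rfl
  rw [hF D hD a b]
  constructor
  · rintro ⟨y, hyF, hyS⟩
    have h2 : ∀ s, ∃ z : Fin m → ℚ, s ∈ S →
        aeval (Fin.cons (Sum.elim ![a, b] y s) z : Fin (m + 1) → ℚ) Q = 0 := by
      intro s
      by_cases hs : s ∈ S
      · obtain ⟨z, hz⟩ := (hQ _).1 (hyS s hs)
        exact ⟨z, fun _ => hz⟩
      · exact ⟨fun _ => 0, fun h => absurd h hs⟩
    choose z hz using h2
    let w : τ → ℚ := Sum.elim y (fun p => z p.1 p.2)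
    refine ⟨fun i => w (e.symm i), ?_⟩
    rw [hev]
    have h3 : (fun t => (fun i => w (e.symm i)) (e t)) = w := by
      funext t
      simp
    rw [h3]
    exact (key _ w).2 ⟨hyF, fun s hs => hz s hs⟩
  · rintro ⟨y, hy⟩
    rw [hev] at hy
    obtain ⟨h5, h6⟩ := (key _ _).1 hy
    exact ⟨fun i => y (e (Sum.inl i)), h5, fun s hs => (hQ _).2 ⟨_, h6 s hs⟩⟩

/-- sets of primes with computable membership -/
theorem re_compl_mod (r m : ℕ) : REPred (fun n : ℕ => n ∉ {p : ℕ | p % m = r}) := by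
  have h : PrimrecPred (fun n : ℕ => n % m = r) :=
    PrimrecRel.comp Primrec.eq (Primrec.nat_mod.comp Primrec.id (Primrec.const m))
      (Primrec.const r)
  have h2 : PrimrecPred (fun n : ℕ => ¬ n % m = r) := h.not
  exact (PrimrecPred.computablePred h2).to_re

end Pool.Agent.U84.PR
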