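import Pool.Agent.U84.PR.Frame
import Pool.Agent.U84.DD.Dio

/-!
# Pole relations over `ℚ`
-/

set_option autoImplicit false

namespace Pool.Agent.U84.PR

open MvPolynomial Pool.Agent.TH255.HC Pool.Agent.TH255.QI Pool.Agent.Helper844.Dio Dioph

/-- `b` has a pole at every prime number of the set `𝒬` at which `a` has a pole. -/
def PoleRel (𝒬 : Set ℕ) (a b : ℚ) : Prop :=
  ∀ p ∈ 𝒬, p.Prime → padicValRat p a < 0 → padicValRat p b < 0

theorem pole_iff {p : ℕ} (hp : p.Prime) (a : ℚ) : padicValRat p a < 0 ↔ p ∣ a.den := by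
  have : Fact p.Prime := ⟨hp⟩
  constructor
  · intro h
    by_contra hd
    have h1 : padicValNat p a.den = 0 := padicValNat.eq_zero_of_not_dvd hd
    unfold padicValRat at h
    rw [h1] at h
    have : (0 : ℤ) ≤ (padicValInt p a.num : ℤ) := Int.natCast_nonneg _
    omega
  · intro h
    have h1 : padicValInt p a.num = 0 := by
      unfold padicValInt
      apply padicValNat.eq_zero_of_not_dvd
      intro h2
      have h3 := Nat.dvd_gcd h2 h
      have h4 : Nat.gcd a.num.natAbs a.den = 1 := a.reduced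
      rw [h4] at h3
      exact hp.one_lt.ne' (Nat.dvd_one.1 h3)
    have h2 : padicValNat p a.den ≠ 0 := by
      have := one_le_padicValNat_of_dvd a.den_nz h
      omega
    unfold padicValRat
    rw [h1]
    omega

section
variable {α : Type}

theorem not_prime_dioph {f : (α → ℕ) → ℕ} (df : DiophFn f) : Dioph {v | ¬ (f v).Prime} := by
  have h : Dioph {v : α → ℕ | f v < 2 ∨ ∃ x, ∃ y, f v = (x + 2) * (y + 2)} := by
    refine or_dioph (lt_dioph df (const_dioph 2)) ?_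
    apply ex_dioph' (fun x (v : α → ℕ) => ∃ y, f v = (x + 2) * (y + 2))
    apply ex_dioph' (fun y (w : Option α → ℕ) => f (w ∘ some) = (w none + 2) * (y + 2))
    exact eq_dioph (fn_lift (fn_lift df))
      (mul_dioph (add_dioph (proj_dioph (some none)) (const_dioph 2))
        (add_dioph fn_none (const_dioph 2)))
  refine Dioph.ext h fun v => ?_
  change (f v < 2 ∨ ∃ x, ∃ y, f v = (x + 2) * (y + 2)) ↔ ¬ (f v).Prime
  constructor
  · rintro (h | ⟨x, y, h⟩)
    · intro h2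
      have := h2.two_le
      omega
    · rw [h]
      exact Nat.not_prime_mul (by omega) (by omega)
  · intro h1
    by_contra hcon
    push Not at hcon
    obtain ⟨h2, h3⟩ := hcon
    obtain ⟨a, b, ha, hb, hab⟩ := (Nat.not_prime_iff_exists_mul_eq h2).1 h1
    have a1 : 2 ≤ a := by
      by_contra hc
      have : a = 0 ∨ a = 1 := by omega
      rcases this with rfl | rfl
      · rw [zero_mul] at hab; omega
      · rw [one_mul] at hab; omega
    have b1 : 2 ≤ b := by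
      by_contra hc
      have : b = 0 ∨ b = 1 := by omega
      rcases this with rfl | rfl
      · rw [mul_zero] at hab; omega
      · rw [mul_one] at hab; omega
    apply h3 (a - 2) (b - 2)
    rw [← hab]
    congr 1 <;> omega

end

/-- the relation between the denominators -/
theorem dioph_den {𝒬 : Set ℕ} (h : REPred (fun n => n ∉ 𝒬)) :
    Dioph {v : Fin 2 → ℕ | ∀ k < v 0 + 1, k ∉ 𝒬 ∨ ¬ k.Prime ∨ v 0 % k ≠ 0 ∨ k ∣ v 1} := by
  apply ball_dioph (fun k (v : Fin 2 → ℕ) => k ∉ 𝒬 ∨ ¬ k.Prime ∨ v 0 % k ≠ 0 ∨ k ∣ v 1)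
    (add_dioph (proj_dioph 0) (const_dioph 1))
  refine or_dioph ?_ (or_dioph (not_prime_dioph fn_none) (or_dioph ?_ ?_))
  · exact reindex_dioph (Option (Fin 2)) (fun _ : Unit => none) (dprm h)
  · exact ne_dioph (mod_dioph (proj_dioph (some 0)) fn_none) (const_dioph 0)
  · exact dvd_dioph fn_none (proj_dioph (some 1))

/-- the denominator of a rational number -/
theorem dt_den {𝒟 : Set ℚ → Prop} (hz : DT 𝒟 (fun _ v => ∃ z : ℤ, v 0 = z)) :
    DT 𝒟 (fun _ v => v 1 = ((v 0).den : ℚ)) := by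
  have h : DT 𝒟 (fun _ v => ∃ u : ℕ → ℚ, (∃ n : ℕ, v 1 = n) ∧ (∃ z : ℤ, u 0 = z) ∧
      (∃ z : ℤ, u 1 = z) ∧ (∃ z : ℤ, u 2 = z) ∧ v 0 * v 1 = u 0 ∧
      u 1 * u 0 + u 2 * v 1 = 1) := by
    apply DT.exs (P := fun _ v u => (∃ n : ℕ, v 1 = n) ∧ (∃ z : ℤ, u 0 = z) ∧
      (∃ z : ℤ, u 1 = z) ∧ (∃ z : ℤ, u 2 = z) ∧ v 0 * v 1 = u 0 ∧
      u 1 * u 0 + u 2 * v 1 = 1)
    exact ((dt_nat hz).ren fun _ => 2).and ((hz.ren fun _ => 1).and ((hz.ren fun _ => 3).and
      ((hz.ren fun _ => 5).and ((DT.eq ((PF.var 0).mul (PF.var 2)) (PF.var 1)).and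
        (DT.eq (((PF.var 3).mul (PF.var 1)).add ((PF.var 5).mul (PF.var 2))) PF.one)))))
  refine h.congr fun _ _ v => ?_
  constructor
  · intro h
    have h1 : IsCoprime (v 0).num ((v 0).den : ℤ) :=
      Int.isCoprime_iff_gcd_eq_one.2 (v 0).reduced
    obtain ⟨x, y, hxy⟩ := h1
    refine ⟨fun i => if i = 0 then (v 0).num else if i = 1 then x else y, ⟨(v 0).den, h⟩,
      ⟨(v 0).num, by simp⟩, ⟨x, by simp⟩, ⟨y, by simp⟩, ?_, ?_⟩
    · rw [h]
      simp [Rat.mul_den_eq_num]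
    · rw [h]
      have : ((x * (v 0).num + y * ((v 0).den : ℤ) : ℤ) : ℚ) = 1 := by rw [hxy]; norm_num
      push_cast at this
      simpa using this
  · rintro ⟨u, ⟨d, hd⟩, ⟨n, hn⟩, ⟨x, hx⟩, ⟨y, hy⟩, h1, h2⟩
    rw [hd, hn, hx, hy] at h2
    rw [hd, hn] at h1
    have h3 : x * n + y * (d : ℤ) = 1 := by exact_mod_cast h2
    have hd0 : d ≠ 0 := by
      rintro rfl
      have h4 : (n : ℚ) = 0 := by rw [← h1]; simp
      have h5 : n = 0 := by exact_mod_cast h4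
      rw [h5] at h3
      simp at h3
    have hdq : (d : ℚ) ≠ 0 := Nat.cast_ne_zero.2 hd0
    have h4 : v 0 = (n : ℚ) / ((d : ℤ) : ℚ) := by
      rw [Int.cast_natCast]
      field_simp
      linarith
    have h5 : IsCoprime n (d : ℤ) := ⟨x, y, h3⟩
    have h6 : Nat.Coprime n.natAbs (d : ℤ).natAbs := Int.isCoprime_iff_gcd_eq_one.1 h5
    have h7 := Rat.den_div_eq_of_coprime (a := n) (b := (d : ℤ)) (by omega) h6
    rw [hd]
    change (d : ℚ) = _
    rw [h4]
    exact_mod_cast h7.symm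

theorem dt_pole {𝒟 : Set ℚ → Prop} (hz : DT 𝒟 (fun _ v => ∃ z : ℤ, v 0 = z)) {𝒬 : Set ℕ}
    (h𝒬 : REPred (fun n => n ∉ 𝒬)) : DT 𝒟 (fun _ v => PoleRel 𝒬 (v 0) (v 1)) := by
  have h0 := dt_dioph (S := fun s t => ∀ k < s + 1, k ∉ 𝒬 ∨ ¬ k.Prime ∨ s % k ≠ 0 ∨ k ∣ t)
    (dt_nat hz) (dioph_den h𝒬)
  have h : DT 𝒟 (fun _ v => ∃ u : ℕ → ℚ, u 0 = ((v 0).den : ℚ) ∧ u 1 = ((v 1).den : ℚ) ∧
      ∃ a b : ℕ, u 0 = a ∧ u 1 = b ∧
        ∀ k < a + 1, k ∉ 𝒬 ∨ ¬ k.Prime ∨ a % k ≠ 0 ∨ k ∣ b) := by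
    apply DT.exs (P := fun _ v u => u 0 = ((v 0).den : ℚ) ∧ u 1 = ((v 1).den : ℚ) ∧
      ∃ a b : ℕ, u 0 = a ∧ u 1 = b ∧
        ∀ k < a + 1, k ∉ 𝒬 ∨ ¬ k.Prime ∨ a % k ≠ 0 ∨ k ∣ b)
    exact ((dt_den hz).ren fun i => if i = 0 then 0 else 1).and
      (((dt_den hz).ren fun i => if i = 0 then 2 else 3).and
        (h0.ren fun i => if i = 0 then 1 else 3))
  refine h.congr fun _ _ v => ?_
  have key : PoleRel 𝒬 (v 0) (v 1) ↔ ∀ k < (v 0).den + 1, k ∉ 𝒬 ∨ ¬ k.Prime ∨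
      (v 0).den % k ≠ 0 ∨ k ∣ (v 1).den := by
    constructor
    · intro h k _
      by_cases h1 : k ∈ 𝒬
      · by_cases h2 : k.Prime
        · by_cases h3 : (v 0).den % k = 0
          · have := h k h1 h2 ((pole_iff h2 _).2 (Nat.dvd_of_mod_eq_zero h3))
            exact Or.inr (Or.inr (Or.inr ((pole_iff h2 _).1 this)))
          · exact Or.inr (Or.inr (Or.inl h3))
        · exact Or.inr (Or.inl h2)
      · exact Or.inl h1
    · intro h p hp hpp hpa
      rw [pole_iff hpp] at hpa ⊢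
      have h1 := h p (Nat.lt_succ_of_le (Nat.le_of_dvd (v 0).den_pos hpa))
      rcases h1 with h1 | h1 | h1 | h1
      · exact absurd hp h1
      · exact absurd hpp h1
      · exact absurd (Nat.mod_eq_zero_of_dvd hpa) h1
      · exact h1
  constructor
  · intro h
    exact ⟨fun i => if i = 0 then ((v 0).den : ℚ) else ((v 1).den : ℚ), by simp, by simp,
      (v 0).den, (v 1).den, by simp, by simp, key.1 h⟩
  · rintro ⟨u, h1, h2, a, b, ha, hb, hk⟩
    rw [h1] at ha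
    rw [h2] at hb
    have ha' : (v 0).den = a := by exact_mod_cast ha
    have hb' : (v 1).den = b := by exact_mod_cast hb
    rw [key, ha', hb']
    exact hk

end Pool.Agent.U84.PR
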